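import Mathlib

set_option autoImplicit false

namespace Q125.Tmr

/-- A tournament with vertex set `V`: a loopless digraph in which every two distinct vertices are
joined by exactly one arc. -/
structure Tournament (V : Type) where
  arc : V → V → Prop
  loopless : ∀ v, ¬ arc v v
  joined : ∀ u v, u ≠ v → arc u v ∨ arc v u
  only_one : ∀ u v, arc u v → ¬ arc v u

/-- A tournament is transitive if it has no directed cycle. -/
def Tournament.Transitive {V : Type} (T : Tournament V) : Prop :=
  ∀ v, ¬ Relation.TransGen T.arc v v

/-- The dijoin `D₁ → D₂`: the disjoint union of `D₁` and `D₂`, and all arcs from `D₁` to `D₂`. -/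
def dijoin {V W : Type} (D₁ : Tournament V) (D₂ : Tournament W) : Tournament (V ⊕ W) where
  arc
    | .inl u, .inl v => D₁.arc u v
    | .inl _, .inr _ => True
    | .inr _, .inl _ => False
    | .inr u, .inr v => D₂.arc u v
  loopless := by
    rintro (v | v)
    · exact D₁.loopless v
    · exact D₂.loopless v
  joined := by
    rintro (u | u) (v | v) h
    · exact D₁.joined u v (fun e => h (by rw [e]))
    · exact Or.inl trivial
    · exact Or.inr trivial
    · exact D₂.joined u v (fun e => h (by rw [e]))
  only_one := by
    rintro (u | u) (v | v) h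
    · exact D₁.only_one u v h
    · exact id
    · exact h.elim
    · exact D₂.only_one u v h

/-- The directed triangle `0 → 1 → 2 → 0`. -/
def triangle : Tournament (Fin 3) where
  arc i j := j = i + 1
  loopless := by decide
  joined := by decide
  only_one := by decide

/-- The graph `G_{D,T}`: `ij` is an edge iff the pair `{i, j}` is oriented differently in `D` and
in `T`. -/
def diffGraph {V : Type} (D T : Tournament V) : SimpleGraph V where
  Adj i j := (D.arc i j ∧ T.arc j i) ∨ (D.arc j i ∧ T.arc i j)
  symm := ⟨fun _ _ h => h.symm⟩
  loopless := ⟨fun v h => h.elim (fun h => D.loopless v h.1) (fun h => D.loopless v h.1)⟩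

/-- `M ∈ 𝓜(G)`: off the diagonal `M` agrees with the adjacency matrix of `G`. -/
def Fits {V : Type} (G : SimpleGraph V) (M : Matrix V V (ZMod 2)) : Prop :=
  ∀ i j, i ≠ j → (M i j = 1 ↔ G.Adj i j)

/-- The tournament minimum rank `tmr(D)`: the least rank over the field with two elements of a
matrix `M ∈ 𝓜(G_{D,T})`, over all transitive tournaments `T` on the vertex set of `D`. -/
noncomputable def tmr {V : Type} [Fintype V] (D : Tournament V) : ℕ :=
  sInf {r | ∃ T : Tournament V, T.Transitive ∧ ∃ M : Matrix V V (ZMod 2),
    Fits (diffGraph D T) M ∧ M.rank = r}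

end Q125.Tmr
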