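import Mathlib
import Pool.Agent.Q125.Inv.Elim
import Pool.Agent.Q125.Inv.Acyclic
import Pool.Agent.Q125.Tmr.Defs

set_option autoImplicit false

namespace Q125.Tmr

open Q125.Inv Matrix

variable {V W : Type} [Fintype V] [Fintype W]

theorem exists_good {D T : Tournament V} (hT : T.Transitive) {M : Matrix V V (ZMod 2)}
    (h : Fits (diffGraph D T) M) : M.IsSymm ∧ ∃ r, Good D.arc M r := by
  constructor
  · ext i j
    rw [Matrix.transpose_apply]
    by_cases hij : i = j
    · rw [hij]
    · have h1 := h i j hij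
      have h2 := h j i (Ne.symm hij)
      rw [(diffGraph D T).adj_comm] at h2
      have h3 : M j i = 1 ↔ M i j = 1 := h2.trans h1.symm
      rcases zmod2 (M i j) with h4 | h4 <;> rcases zmod2 (M j i) with h5 | h5
      · rw [h4, h5]
      · exact absurd (h3.1 h5) (by rw [h4]; decide)
      · exact absurd (h3.2 h4) (by rw [h5]; decide)
      · rw [h4, h5]
  · obtain ⟨r, hr⟩ := exists_rank T.arc hT
    refine ⟨r, fun u v huv => ?_⟩
    have hne : u ≠ v := by
      rintro rfl
      exact D.loopless _ huv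
    constructor
    · intro h0
      rcases T.joined u v hne with h1 | h1
      · exact hr _ _ h1
      · have := (h u v hne).2 (Or.inl ⟨huv, h1⟩)
        rw [h0] at this
        exact absurd this (by decide)
    · intro h0
      rcases (h u v hne).1 h0 with h1 | h1
      · exact hr _ _ h1.2
      · exact absurd h1.1 (D.only_one _ _ huv)

theorem exists_transitive {D : Tournament V} {M : Matrix V V (ZMod 2)} (hs : M.IsSymm)
    {r : V → ℤ} (h : Good D.arc M r) :
    ∃ T : Tournament V, T.Transitive ∧ Fits (diffGraph D T) M := by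
  have hsym : ∀ u v, M u v = M v u := fun u v => hs.apply v u
  have hne : ∀ u v, u ≠ v → r u ≠ r v := by
    intro u v huv
    rcases D.joined u v huv with h1 | h1
    · rcases zmod2 (M u v) with h2 | h2
      · exact ((h _ _ h1).1 h2).ne
      · exact ((h _ _ h1).2 h2).ne'
    · rcases zmod2 (M v u) with h2 | h2
      · exact ((h _ _ h1).1 h2).ne'
      · exact ((h _ _ h1).2 h2).ne
  refine ⟨⟨fun u v => r u < r v, fun v => lt_irrefl _, fun u v huv => lt_or_gt_of_ne (hne u v huv),
    fun u v h1 h2 => lt_asymm h1 h2⟩, acyclic_of_rank _ r (fun _ _ h => h), ?_⟩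
  intro i j hij
  show M i j = 1 ↔ (D.arc i j ∧ r j < r i) ∨ (D.arc j i ∧ r i < r j)
  constructor
  · intro h1
    rcases D.joined i j hij with h2 | h2
    · exact Or.inl ⟨h2, (h _ _ h2).2 h1⟩
    · exact Or.inr ⟨h2, (h _ _ h2).2 (by rw [hsym]; exact h1)⟩
  · rintro (⟨h1, h2⟩ | ⟨h1, h2⟩)
    · rcases zmod2 (M i j) with h3 | h3
      · exact absurd ((h _ _ h1).1 h3) (asymm h2)
      · exact h3
    · rcases zmod2 (M j i) with h3 | h3
      · exact absurd ((h _ _ h1).1 h3) (asymm h2)
      · rw [hsym]; exact h3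

theorem tmr_le {D : Tournament V} {M : Matrix V V (ZMod 2)} (hs : M.IsSymm)
    {r : V → ℤ} (h : Good D.arc M r) : tmr D ≤ M.rank := by
  obtain ⟨T, h1, h2⟩ := exists_transitive hs h
  exact Nat.sInf_le ⟨T, h1, M, h2, rfl⟩

theorem exists_matrix (D : Tournament V) : ∃ M : Matrix V V (ZMod 2), M.IsSymm ∧ M.rank = tmr D ∧
    ∃ r, Good D.arc M r := by
  classical
  have hne : {r | ∃ T : Tournament V, T.Transitive ∧ ∃ M : Matrix V V (ZMod 2),
      Fits (diffGraph D T) M ∧ M.rank = r}.Nonempty := by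
    let e := Fintype.equivFin V
    let T : Tournament V := ⟨fun u v => e u < e v, fun v => lt_irrefl _,
      fun u v huv => lt_or_gt_of_ne (fun h => huv (e.injective h)), fun u v h1 h2 => lt_asymm h1 h2⟩
    refine ⟨_, T, ?_, Matrix.of fun i j => if (diffGraph D T).Adj i j then 1 else 0, ?_, rfl⟩
    · apply acyclic_of_rank _ (fun v => ((e v : ℕ) : ℤ))
      intro u v h
      exact_mod_cast (show (e u : ℕ) < e v from h)
    · intro i j _
      simp
  obtain ⟨T, hT, M, hM, hr⟩ := Nat.sInf_mem hne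
  obtain ⟨h1, h2⟩ := exists_good hT hM
  exact ⟨M, h1, hr, h2⟩

theorem rank_add_le' (A B : Matrix V W (ZMod 2)) : (A + B).rank ≤ A.rank + B.rank := by
  have h1 : LinearMap.range (A + B).mulVecLin ≤
      LinearMap.range A.mulVecLin ⊔ LinearMap.range B.mulVecLin := by
    rintro y ⟨x, rfl⟩
    rw [Matrix.mulVecLin_apply, Matrix.add_mulVec]
    exact Submodule.add_mem_sup ⟨x, rfl⟩ ⟨x, rfl⟩
  exact (Submodule.finrank_mono h1).trans (Submodule.finrank_add_le_finrank_add_finrank _ _)

theorem rank_fromBlocks_le (A : Matrix V V (ZMod 2)) (B : Matrix W W (ZMod 2)) :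
    (fromBlocks A 0 0 B).rank ≤ A.rank + B.rank := by
  classical
  have h1 : fromBlocks A 0 0 B = (fromRows (1 : Matrix V V (ZMod 2)) (0 : Matrix W V (ZMod 2))) * A *
      (fromCols (1 : Matrix V V (ZMod 2)) (0 : Matrix V W (ZMod 2))) +
      (fromRows (0 : Matrix V W (ZMod 2)) (1 : Matrix W W (ZMod 2))) * B *
      (fromCols (0 : Matrix W V (ZMod 2)) (1 : Matrix W W (ZMod 2))) := by
    ext (i | i) (j | j) <;>
      simp [Matrix.fromRows_mul, Matrix.fromRows_mul_fromCols, Matrix.mul_fromCols]
  rw [h1]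
  refine (rank_add_le' _ _).trans (add_le_add ?_ ?_)
  · exact (Matrix.rank_mul_le_left _ _).trans (Matrix.rank_mul_le_right _ _)
  · exact (Matrix.rank_mul_le_left _ _).trans (Matrix.rank_mul_le_right _ _)

theorem tmr_dijoin_le (D₁ : Tournament V) (D₂ : Tournament W) :
    tmr (dijoin D₁ D₂) ≤ tmr D₁ + tmr D₂ := by
  obtain ⟨M₁, s1, e1, r1, g1⟩ := exists_matrix D₁
  obtain ⟨M₂, s2, e2, r2, g2⟩ := exists_matrix D₂
  rw [← e1, ← e2]
  refine le_trans ?_ (rank_fromBlocks_le M₁ M₂)
  obtain ⟨K, hK⟩ : ∃ K : ℤ, ∀ v, r1 v < K := by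
    obtain ⟨K1, h1⟩ := (Set.finite_range r1).bddAbove
    exact ⟨K1 + 1, fun v => lt_of_le_of_lt (h1 ⟨v, rfl⟩) (by linarith)⟩
  obtain ⟨L, hL⟩ : ∃ L : ℤ, ∀ v, L < r2 v := by
    obtain ⟨K1, h1⟩ := (Set.finite_range r2).bddBelow
    exact ⟨K1 - 1, fun v => lt_of_lt_of_le (by linarith) (h1 ⟨v, rfl⟩)⟩
  refine tmr_le (r := Sum.elim r1 (fun w => r2 w - L + K)) ?_ ?_
  · ext (i | i) (j | j)
    · simpa using s1.apply i j
    · simp
    · simp
    · simpa using s2.apply i j
  · rintro (u | u) (v | v) huv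
    · exact g1 u v huv
    · refine ⟨fun _ => ?_, fun h => absurd h (by simp)⟩
      have := hK u
      have := hL v
      simp only [Sum.elim_inl, Sum.elim_inr]
      linarith
    · exact huv.elim
    · have := g2 u v huv
      constructor
      · intro h
        have := this.1 h
        simp only [Sum.elim_inr]
        linarith
      · intro h
        have := this.2 h
        simp only [Sum.elim_inr]
        linarith

theorem tmr_triangle_le : tmr triangle ≤ 1 := by
  let v : Fin 3 → ZMod 2 := ![1, 0, 1]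
  have h1 : (Matrix.vecMulVec v v).IsSymm := by
    ext i j
    simp [Matrix.vecMulVec_apply, mul_comm]
  refine (tmr_le (M := Matrix.vecMulVec v v) (r := ![0, 1, 2]) h1 ?_).trans
    (Matrix.rank_vecMulVec_le _ _)
  intro i j hij
  have hij' : j = i + 1 := hij
  subst hij'
  fin_cases i <;> simp [Matrix.vecMulVec_apply, v]

theorem triangle_not_acyclic (r : Fin 3 → ℤ) : ¬ ∀ x y, triangle.arc x y → r x < r y := by
  intro h
  have h1 := h 0 1 rfl
  have h2 := h 1 2 rfl
  have h3 := h 2 0 rfl
  omega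

theorem main (D : Tournament V) :
    tmr (dijoin D triangle) = tmr D + 1 ∧ tmr (dijoin triangle D) = tmr D + 1 := by
  constructor
  · apply le_antisymm
    · exact (tmr_dijoin_le D triangle).trans (Nat.add_le_add_left tmr_triangle_le _)
    · obtain ⟨M, hs, hr, r, hg⟩ := exists_matrix (dijoin D triangle)
      obtain ⟨M', h1, h2, r', h3⟩ := elim_right_of_one (DV := D.arc) (DU := triangle.arc) hs hg
        Sum.inl Sum.inr (fun u v h => h) (fun x y h => h) (fun v x => trivial)
        triangle_not_acyclic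
      have := tmr_le h1 h3
      omega
  · apply le_antisymm
    · have := (tmr_dijoin_le triangle D).trans (Nat.add_le_add_right tmr_triangle_le _)
      omega
    · obtain ⟨M, hs, hr, r, hg⟩ := exists_matrix (dijoin triangle D)
      obtain ⟨M', h1, h2, r', h3⟩ := elim_left_of_one (DV := D.arc) (DU := triangle.arc) hs hg
        Sum.inr Sum.inl (fun u v h => h) (fun x y h => h) (fun v x => trivial)
        triangle_not_acyclic
      have := tmr_le h1 h3
      omega

end Q125.Tmr
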